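import Pool.Agent.H73.FF.Bridge

/-!
# The Fontaine-Mazur conjecture and infinite solvable extensions

Let `K` be a number field, `p` a prime number and `ρ` an irreducible continuous representation of
`G_K` over `ℚ_p-bar`, unramified at almost all places and de Rham above `p`. Let `L/K` be a Galois
extension of infinite degree whose group is solvable, for example the maximal abelian extension of
`K` or the maximal abelian extension of that field. Suppose that `ρ` comes from geometry over `L`: `ρ|G_L` (or only an irreducible
constituent of it) occurs in the étale cohomology of a smooth projective variety over `L`, hence over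
a finite subextension `K'`; regard it as a variety over `K` and let `θ` be its cohomology (with a
Tate twist, semisimplified), a representation of `G_K`. Then there is a nonzero homomorphism from
`ρ|G_L` to `θ|G_L`.

The theorem says that then `ρ` is a subrepresentation of the representation induced from
`θ|G_M ⊗ χ` for a finite subextension `M` of `L` and a character `χ` of `Gal(L/M)`, which occurs in
the dual of `ρ^∨ ⊗ θ` restricted to `G_M`: so `χ` is unramified at almost all places and de Rham above
`p`, as `ρ` and `θ` are. Such characters are known to come from geometry (algebraic Hecke characters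
and abelian varieties with complex multiplication), so `ρ` comes from geometry over `K`: the
conjecture for `ρ` need only be proved over an infinite solvable extension. The last two sentences
are not part of the Lean.
-/

set_option autoImplicit false

namespace Pool.Agent.Results.MP_f68ac8_nt.SolvableDescent

open Pool.Agent.H73.FF.Stm

/-- There is a nonzero homomorphism `X` from `ρ|G_M` to `θ|G_M ⊗ χ`, that is, a nonzero element `X`
of `Hom(ρ, θ)` on which `G_M` acts by the inverse of `χ`. -/
def Occurs {K : Type} [Field K] {ℓ : ℕ} [Fact ℓ.Prime] {n m : ℕ}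
    {M : IntermediateField K (SeparableClosure K)} (χ : Char ℓ M) (ρ : Rep K ℓ n)
    (θ : Rep K ℓ m) : Prop :=
  ∃ X : Mat ℓ m n, X ≠ 0 ∧ ∀ u : Grp M, Intertwines X (val χ u • mat θ u.1) (mat ρ u.1)

/-- For some finite subextension `M` of `L` and some continuous character `χ` of `Gal(L/M)`, the
inverse of which occurs in `Hom(ρ, θ)` restricted to `G_M`, the representation `ρ` is a
subrepresentation of the representation of `G_K` induced from the representation `θ|G_M ⊗ χ`. -/
def DescendsUpToCharacter {K : Type} [Field K] {ℓ : ℕ} [Fact ℓ.Prime] {n m : ℕ}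
    (L : IntermediateField K (SeparableClosure K)) (ρ : Rep K ℓ n) (θ : Rep K ℓ m) : Prop :=
  ∃ M : IntermediateField K (SeparableClosure K), FiniteSub M L ∧
    ∃ χ : Char ℓ M, CharOver L M χ ∧ Occurs χ ρ θ ∧ SubInduced χ ρ θ

/-- Let `K` be a number field, `p` a prime number, `ρ` and `θ` continuous representations of `G_K`
over `ℚ_p-bar`, `ρ` irreducible, and `L/K` a Galois extension, of finite or infinite degree, whose
group is solvable (of finite derived length; the abelian layers may be infinite). There is a nonzero
homomorphism from `ρ|G_L` to `θ|G_L` if and only if for some finite subextension `M` of `L` and some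
continuous character `χ` of `Gal(L/M)`, the inverse of which occurs in `Hom(ρ, θ)` restricted to
`G_M`, the representation `ρ` is a subrepresentation of the representation of `G_K` induced from
`θ|G_M ⊗ χ`. This is so if `θ` is semisimple and `ρ|G_L` is a subquotient of `θ|G_L`. -/
theorem result (p : ℕ) [Fact p.Prime] (K : Type) [Field K] [NumberField K] (n m : ℕ)
    (ρ : Rep K p n) (θ : Rep K p m) (hρ : Continuous ρ) (hθ : Continuous θ)
    (L : IntermediateField K (SeparableClosure K)) (hG : SolvableGalois L)
    (hirr : IrreducibleOn ⊤ ρ) :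
    (Hom L ρ θ ↔ DescendsUpToCharacter L ρ θ) ∧
    (Semisimple θ → Subquotient (Grp L) ρ θ → DescendsUpToCharacter L ρ θ) := by
  obtain ⟨hGal, d, hd⟩ := id hG
  have hn : (L.fixingSubgroup).Normal := (InfiniteGalois.normal_iff_isGalois L).mpr hGal
  have key : Hom L ρ θ → DescendsUpToCharacter L ρ θ := by
    intro h
    obtain ⟨M, hML, hMf, χ, hχc, hχL, X, hX, hXχ⟩ :=
      Pool.Agent.H73.FF.eigen_solvable ρ θ hρ hθ L hn d hd h
    obtain ⟨Φ, hΦ1, hΦ2⟩ := Pool.Agent.H73.FF.induced_of_eigen ρ θ
      (Pool.Agent.H73.FF.irr_of_stm ρ hirr) M χ X hX hXχ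
    refine ⟨M, ⟨hML, hMf⟩, χ⁻¹, ⟨?_, fun u hu => ?_⟩, ⟨X, hX, ?_⟩, Φ, hΦ1,
      fun v => ⟨?_, fun x => ?_⟩⟩
    · exact Pool.Agent.H73.FF.inv_cont M χ hχc
    · exact Pool.Agent.H73.FF.inv_one_of M χ u (hχL u hu)
    · exact Pool.Agent.H73.FF.inv_twist M χ ρ θ X hXχ
    · exact fun u g => (hΦ2 v).1 u g
    · funext g
      exact (hΦ2 v).2 x g
  refine ⟨⟨key, ?_⟩, fun hss h =>
    key (Pool.Agent.H73.FF.hom_of_sub L ρ θ hn hirr.1 hss h)⟩
  rintro ⟨M, ⟨hML, hMf⟩, χ, ⟨-, hχL⟩, -, Φ, hΦ1, hΦ2⟩
  exact Pool.Agent.H73.FF.eigen_of_induced ρ θ hirr.1 L M hML χ hχL Φ hΦ1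
    (fun v => ⟨fun u g => (hΦ2 v).1 u g, fun x g => congrFun ((hΦ2 v).2 x) g⟩)

end Pool.Agent.Results.MP_f68ac8_nt.SolvableDescent
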