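import Pool.Agent.H73.FF.Bridge

/-!
# The Fontaine-Mazur conjecture and restriction to a pro-`p` Sylow subgroup

Let `K` be a number field, `p` a prime number and `ρ` a continuous representation of `G_K` over
`ℚ_p-bar`. Let `L/K` be an algebraic extension of infinite degree, for example the fixed field of a
pro-`p` Sylow subgroup `P` of `G_K`, so that `G_L = P`. Suppose that `ρ` comes from geometry over `L`:
`ρ|G_L` is a subquotient of the étale cohomology of a smooth projective variety over `L`, hence over
a finite subextension `K'`; regard it as a variety over `K` and let `θ` be its cohomology (with a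
Tate twist), a representation of `G_K`, whose restriction to `G_K'` contains the given one. The
theorem says that, if the `p`-part of the degree of `L/K` is finite, or `Gal(L/K)` is a torsion group
and `θ` is semisimple, `ρ` comes from geometry over `K`: it is a subquotient of the representation
induced from `θ|G_M` for a finite extension `M` of `K`, which is the cohomology of the variety over
`M`, regarded as a variety over `K`. So the conjecture for `ρ` is a statement about the restriction
of `ρ` to a pro-`p` Sylow subgroup of `G_K`.
-/

set_option autoImplicit false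

namespace Pool.Agent.Results.MP_f68ac8_nt.SylowDescent

open Pool.Agent.H73.FF.Stm

/-- Let `K` be a number field, `p` a prime number, `ρ` and `θ` continuous
representations of `G_K` over `ℚ_p-bar` and `L/K` an algebraic extension, of finite or
infinite degree. Suppose that

* either the `p`-part of the degree of `L/K` is finite, that is, for some `C` no finite subextension
  `M` has a degree `[M : K]` divisible by `p ^ (C + 1)`,
* or `L/K` is Galois, all elements of `Gal(L/K)` have finite order, and `θ` is semisimple.

If `ρ|G_L` is a subquotient of `θ|G_L`, then `ρ|G_M` is a subquotient of `θ|G_M` for a finite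
subextension `M` of `L`, and `ρ` is a subquotient of the representation of `G_K` induced from
`θ|G_M`. -/
theorem result (p : ℕ) [Fact p.Prime] (K : Type) [Field K] [NumberField K] (n m : ℕ)
    (ρ : Rep K p n) (θ : Rep K p m) (hρ : Continuous ρ) (hθ : Continuous θ)
    (L : IntermediateField K (SeparableClosure K))
    (hL : FiniteEllPart p L ∨ (TorsionGalois L ∧ Semisimple θ))
    (h : Subquotient (Grp L) ρ θ) : Descends L ρ θ := by
  rcases hL with ⟨C, hC⟩ | ⟨⟨hG, htor⟩, hss⟩
  · obtain ⟨M, h1, h2, h3⟩ := Pool.Agent.H73.FF.descend_index ρ θ hρ hθ L C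
      (fun M h1 h2 => hC M ⟨h1, h2⟩) (Pool.Agent.H73.FF.over_of_stm L ρ θ h)
    exact ⟨M, ⟨h1, h2⟩, Pool.Agent.H73.FF.stm_of_over M ρ θ h3,
      Pool.Agent.H73.FF.stm_of_induced M ρ θ (Pool.Agent.H73.FF.sub_induced M ρ θ h3)⟩
  · have hn : (L.fixingSubgroup).Normal := (InfiniteGalois.normal_iff_isGalois L).mpr hG
    obtain ⟨M, h1, h2, h3⟩ := Pool.Agent.H73.FF.descend_torsion ρ θ hρ hθ L htor
      (Pool.Agent.H73.FF.sub_of_subquotient L ρ θ (Pool.Agent.H73.FF.ss_of_stm θ hss)
        (Pool.Agent.H73.FF.over_of_stm L ρ θ h))
    have h4 := Pool.Agent.H73.FF.subquotient_of_sub M ρ θ h3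
    exact ⟨M, ⟨h1, h2⟩, Pool.Agent.H73.FF.stm_of_over M ρ θ h4,
      Pool.Agent.H73.FF.stm_of_induced M ρ θ (Pool.Agent.H73.FF.sub_induced M ρ θ h4)⟩

end Pool.Agent.Results.MP_f68ac8_nt.SylowDescent
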