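import Pool.Agent.H73.FM.NF

/-!
# Tame places and no condition at `p`, over number fields

Let `K` be a number field, `p` an odd prime number, `E` an arbitrary set of finite places of `K` such
that there is at most one extension of `K` with group `ℤ/p` unramified outside `E`, and let
`v₀, ..., v_t` be finite places whose norms are congruent to `1` modulo `p ^ m`, but not modulo
`p ^ (m + 1)`; the place `v₀` does not split in the extension (it generates its Galois group). Let `A`
be a Noetherian local ring in which `p` is a nonunit and not a zero divisor, and let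
`ρ : Gal(Kbar/K) → GL_n(A)` be continuous, trivial modulo `p ^ m`, and unramified at the places
outside `E` and different from the `v_i` which divide `p` or have norm congruent to `1` modulo
`p ^ m`. Nothing is assumed at the places in `E`, which may be places above `p`.

Let `u_i = (N(v_i) - 1) / p ^ m`. We suppose that for `1 ≤ i ≤ t` there is a weight `ω_i` such that
`χ(Frob v_i) ^ ω_i = χ(Frob v_0) ^ u_i` for all homomorphisms `χ` to `ℤ/p` unramified outside `E` and
the `v_j` with `j > i`, or that `χ(Frob v_i) = 1` for all these `χ`. If `t = 1` this only concerns the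
at most one extension unramified outside `E`. Let `ω_0 = u_0`. We suppose that no sum of at
least one and at most `n` of the weights (not necessarily distinct) is divisible by `p`; if all the
weights are equal this means `n < p`.

Then the trace of `ρ` is unramified outside `E` and factors through a procyclic extension, and through
the cyclotomic extension if `E` contains the places above `p`. If `ρ` is irreducible over a field
`F` of characteristic zero then it has the same properties, and if `F` is algebraically closed then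
`n` is at most one.

Examples: `K = ℚ`, `E = {p}`, `m = 1`, `n < p` and any two prime numbers `v₀, v₁` congruent to `1`
modulo `p` but not modulo `p ^ 2`; totally real `p`-rational fields; imaginary quadratic fields whose
class number is prime to `p`, where `E` consists of one of the two places above a split prime `p`.
-/

set_option autoImplicit false

open NumberField IsDedekindDomain IsLocalRing Matrix Pool.Agent.H73.FM.NF

namespace Pool.Agent.Results.MP_f68ac8_nt.TamePlacesWild

/-- The theorem. -/
theorem result (K : Type) [Field K] [NumberField K] (p : ℕ) [Fact p.Prime] (hp2 : p ≠ 2)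
    (m : ℕ) (hm : 1 ≤ m)
    -- the places
    (E : Set (HeightOneSpectrum (𝓞 K))) (t : ℕ) (v : ℕ → HeightOneSpectrum (𝓞 K))
    (hv : ∀ i ≤ t, p ^ m ∣ norm (v i) - 1 ∧ ¬ p ^ (m + 1) ∣ norm (v i) - 1)
    (hE : ∀ χ : AbsGal K →* Multiplicative (ZMod p), UnramifiedOutside p E χ →
      ∀ σ, Frobenius (v 0) σ → χ σ = 1 → ∀ g, χ g = 1)
    -- the weights
    (ω : ℕ → ℕ) (hω0 : ω 0 = (norm (v 0) - 1) / p ^ m)
    (hω : ∀ i, 1 ≤ i → i ≤ t →
      (∀ χ : AbsGal K →* Multiplicative (ZMod p), UnramifiedOutside p (E ∪ Later t v i) χ →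
        ∀ σ σ₀, Frobenius (v i) σ → Frobenius (v 0) σ₀ →
          χ σ ^ ω i = χ σ₀ ^ ((norm (v i) - 1) / p ^ m)) ∨
      (∀ χ : AbsGal K →* Multiplicative (ZMod p), UnramifiedOutside p (E ∪ Later t v i) χ →
        ∀ σ, Frobenius (v i) σ → χ σ = 1))
    -- the dimension
    (n : ℕ) (hn : ∀ a : ℕ → ℕ, 1 ≤ ∑ i ∈ Finset.range (t + 1), a i →
      ∑ i ∈ Finset.range (t + 1), a i ≤ n → ¬ p ∣ ∑ i ∈ Finset.range (t + 1), a i * ω i)
    -- the representation
    (A : Type) [CommRing A] [IsLocalRing A] [IsNoetherianRing A] [TopologicalSpace A]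
    (hA : IsAdic (maximalIdeal A)) (hpA : (p : A) ∈ maximalIdeal A)
    (hreg : ∀ a : A, (p : A) * a = 0 → a = 0)
    (ρ : AbsGal K →* GL (Fin n) A) (hρ : Continuous ρ)
    (hρ1 : ∀ g, CongruentOne p m (ρ g : Matrix (Fin n) (Fin n) A))
    (hur : ∀ w, w ∉ E → (∀ i ≤ t, w ≠ v i) → (Divides w p ∨ p ^ m ∣ norm w - 1) →
      UnramifiedAt ρ w) :
    (∀ w, w ∉ E → ∀ P, Above P w → ∀ τ, Inertia P τ → TrivialOnTrace ρ τ) ∧
    (∀ g g', TrivialOnTrace ρ (g * g' * g⁻¹ * g'⁻¹)) ∧
    ((∀ w, Divides w p → w ∈ E) → ∀ g, FixesRootsOfUnity p g → TrivialOnTrace ρ g) ∧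
    ∀ (F : Type) [Field F] [CharZero F] (φ : A →+* F), IrreducibleOver φ ρ →
      (∀ g, TrivialOnTrace ρ g → (ρ g : Matrix (Fin n) (Fin n) A).map φ = 1) ∧
      (IsAlgClosed F → n ≤ 1) :=
  numberField K p hp2 m hm E t v hv hE ω hω0 hω n hn A hA hpA hreg ρ hρ hρ1 hur

end Pool.Agent.Results.MP_f68ac8_nt.TamePlacesWild
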