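import Pool.Agent.H73.FM.RS

/-!
# Two tame primes and no condition at `p`

Let `p` be an odd prime number and `A` a Noetherian local ring in which `p` is a nonunit and not a
zero divisor (for example the ring of integers of a finite extension of `ℚ_p`).

Let `ρ : Gal(ℚbar/ℚ) → GL_n(A)` be a continuous representation of dimension `n < p`, trivial modulo
`p`, and let `l₀, l₁` be prime numbers congruent to `1` modulo `p`, but not modulo `p ^ 2`. Suppose
that `ρ` is unramified at all other prime numbers congruent to `1` modulo `p`. Nothing is assumed at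
`p`, and nothing at the prime numbers not congruent to `1` modulo `p`. Then the trace of `ρ` factors
through the Galois group of the cyclotomic extension `ℚ(μ_{p^∞})`: if `g` fixes all roots of unity of
`p`-power order then `tr ρ(h g) = tr ρ(h)` for all `h`. So if `ρ` is irreducible over a field `F` of
characteristic zero (with a homomorphism `A → F`), then it factors through this extension, and if
`F` is algebraically closed then `n = 1` (or `n = 0`): there are no absolutely irreducible
representations of dimension at least two of this kind, so that the conjecture of Fontaine and Mazur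
holds for them.

More generally the same holds for primes `l₀, ..., l_t` as above such that
`l_i ^ (u_0 u_j) = l_0 ^ (u_i u_j)` modulo `l_j` for `1 ≤ i < j`, where `u_i = (l_i - 1) / p`. This is
no condition if `t = 1`.

Proof. Write `ρ(g) = 1 + p Z_g`, let `B` be the `A`-algebra generated by the matrices `Z_g`, and
let `z_g` be the image of `Z_g` in the reduction of `B` modulo the maximal ideal of `A`. By the
theorem of Burnside this reduction is generated by `s = z_σ` and the `z_i = z_{τ_i}`, for a Frobenius
element `σ` at `l₀` and generators `τ_i` of inertia groups at `l_i`, and `z_i` is an eigenvector of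
`ad(s + x_i)` for the eigenvalue `u_0`, where `x_i` is a linear combination of the `z_j` with `j < i`.
By induction `s + x_i` is conjugate to `s` under a unipotent element, so we obtain eigenvectors of
`ad(s)` which generate the ideal of the `z_i`; since `s` is killed by a polynomial of degree `n < p`
the products of `n` of them vanish. The functionals `b ↦ tr(b Z_τ)` modulo the maximal ideal have
similar properties, and it follows that they vanish. So the ideal generated by all the `tr(b Z_τ)` is
zero by Nakayama's lemma.
-/

set_option autoImplicit false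

open NumberField IsDedekindDomain IsLocalRing Matrix Pool.Agent.H73.FM.NF

namespace Pool.Agent.Results.MP_f68ac8_nt.TwoTamePrimes

/-- The theorem. -/
theorem result (p : ℕ) [Fact p.Prime] (hp2 : p ≠ 2)
    -- the prime numbers
    (t : ℕ) (l : ℕ → ℕ) (hl : ∀ i ≤ t, (l i).Prime ∧ p ∣ l i - 1 ∧ ¬ p ^ 2 ∣ l i - 1)
    (hinj : ∀ i ≤ t, ∀ j ≤ t, l i = l j → i = j)
    (hlink : ∀ i j, 1 ≤ i → i < j → j ≤ t →
      (l i : ZMod (l j)) ^ ((l 0 - 1) / p * ((l j - 1) / p)) =
        (l 0 : ZMod (l j)) ^ ((l i - 1) / p * ((l j - 1) / p)))
    (n : ℕ) (hn : n < p)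
    -- the representation
    (A : Type) [CommRing A] [IsLocalRing A] [IsNoetherianRing A] [TopologicalSpace A]
    (hA : IsAdic (maximalIdeal A)) (hpA : (p : A) ∈ maximalIdeal A)
    (hreg : ∀ a : A, (p : A) * a = 0 → a = 0)
    (ρ : AbsGal ℚ →* GL (Fin n) A) (hρ : Continuous ρ)
    (hρ1 : ∀ g, CongruentOne p 1 (ρ g : Matrix (Fin n) (Fin n) A))
    (hur : ∀ q : ℕ, q.Prime → p ∣ q - 1 → (∀ i ≤ t, q ≠ l i) → ∀ P : Ideal (ZBar ℚ),
      P.IsMaximal → (q : ZBar ℚ) ∈ P → ∀ τ, Inertia P τ → ρ τ = 1) :
    (∀ g, FixesRootsOfUnity p g → TrivialOnTrace ρ g) ∧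
    (∀ q : ℕ, q.Prime → q ≠ p → ∀ P : Ideal (ZBar ℚ), P.IsMaximal → (q : ZBar ℚ) ∈ P →
      ∀ τ, Inertia P τ → TrivialOnTrace ρ τ) ∧
    ∀ (F : Type) [Field F] [CharZero F] (φ : A →+* F), IrreducibleOver φ ρ →
      (∀ g, TrivialOnTrace ρ g → (ρ g : Matrix (Fin n) (Fin n) A).map φ = 1) ∧
      (IsAlgClosed F → n ≤ 1) :=
  rational p hp2 t l hl hinj hlink n hn A hA hpA hreg ρ hρ hρ1 hur

end Pool.Agent.Results.MP_f68ac8_nt.TwoTamePrimes
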